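import Pool.Agent.TH197.Sym.Bounds

/-!
# Codes for the 7-cycle with many symmetries

We view the words of length `dn` as words of length `n` over the alphabet of the words of length
`d` and look at the codes for `C_7` that are invariant under many permutations of the `n` letters.
-/

set_option autoImplicit false
set_option linter.unusedSectionVars false

namespace Pool.Agent.Results.MP_263185_co.SymmetricCodes

open Finset Equiv

/-- `a` and `b` are equal or adjacent in the 7-cycle. -/
def Close (a b : ZMod 7) : Prop := a = b ∨ a = b + 1 ∨ b = a + 1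

/-- `A` is a set of words of length `k` over the 7-cycle in which no two distinct words are
confusable. -/
def Code (k : ℕ) (A : Finset (Fin k → ZMod 7)) : Prop :=
  ∀ x ∈ A, ∀ y ∈ A, (∀ i, Close (x i) (y i)) → x = y

/-- `m_k(C_7)`, the largest size of a set of words of length `k` without distinct confusable
words. -/
noncomputable def m (k : ℕ) : ℕ :=
  sSup {t : ℕ | ∃ A : Finset (Fin k → ZMod 7), Code k A ∧ A.card = t}

/-- The same as `Code` for the words of length `dn`, written as sequences of `n` blocks of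
length `d`. -/
def BlockCode (d n : ℕ) (A : Finset (Fin n → Fin d → ZMod 7)) : Prop :=
  ∀ x ∈ A, ∀ y ∈ A, (∀ i j, Close (x i j) (y i j)) → x = y

/-- `A` is invariant under the permutation `σ` of the `n` blocks. -/
def Inv (d n : ℕ) (σ : Perm (Fin n)) (A : Finset (Fin n → Fin d → ZMod 7)) : Prop :=
  ∀ x ∈ A, (fun i => x (σ i)) ∈ A

/-- The largest size of a code of length `dn` that is invariant under all the permutations of the
`n` blocks of length `d`. -/
noncomputable def mblk (d n : ℕ) : ℕ :=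
  sSup {t : ℕ | ∃ A : Finset (Fin n → Fin d → ZMod 7),
    BlockCode d n A ∧ (∀ σ : Perm (Fin n), Inv d n σ A) ∧ A.card = t}

/-- an abbreviation used in the proofs -/
abbrev X (d : ℕ) := Fin d → ZMod 7

lemma Close.refl (a : ZMod 7) : Close a a := Or.inl rfl

lemma Close.symm {a b : ZMod 7} (h : Close a b) : Close b a := by
  rcases h with h | h | h
  · exact Or.inl h.symm
  · exact Or.inr (Or.inr h)
  · exact Or.inr (Or.inl h)

open Classical in
/-- the two terms -/
noncomputable def F (d : ℕ) : Fin 2 → X d × X d → X d :=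
  ![fun q => q.1, fun q => if ∀ j, Close (q.1 j) (q.2 j) then q.2 else q.1]

/-- pairs of distinct confusable letters -/
def nt (d : ℕ) (q : X d × X d) : Prop := q.1 ≠ q.2 ∧ ∀ j, Close (q.1 j) (q.2 j)

lemma F_one_of {d : ℕ} {q : X d × X d} (h : ∀ j, Close (q.1 j) (q.2 j)) : F d 1 q = q.2 :=
  if_pos h

lemma card_X (d : ℕ) : Fintype.card (X d) = 7 ^ d := by
  rw [Fintype.card_fun, ZMod.card, Fintype.card_fin]

lemma hτ (d : ℕ) (i : Fin 2) (v : X d) : F d i (v, v) = v := by
  fin_cases i
  · rfl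
  · exact F_one_of (fun j => Close.refl _)

lemma htriv (d : ℕ) (q : X d × X d) (hq : ¬ nt d q) (i j : Fin 2) : F d i q = F d j q := by
  have key : ∀ i : Fin 2, F d i q = q.1 := by
    intro i
    fin_cases i
    · rfl
    · by_cases h : ∀ j, Close (q.1 j) (q.2 j)
      · have h2 : q.1 = q.2 := by
          by_contra h3
          exact hq ⟨h3, h⟩
        show F d 1 q = q.1
        rw [F_one_of h, h2]
      · exact if_neg h
  rw [key i, key j]

lemma m_bdd (k : ℕ) : BddAbove {t : ℕ | ∃ A : Finset (Fin k → ZMod 7), Code k A ∧ A.card = t} := by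
  refine ⟨Fintype.card (Fin k → ZMod 7), ?_⟩
  rintro t ⟨B, _, rfl⟩
  exact Finset.card_le_univ B

lemma le_m {k : ℕ} {A : Finset (Fin k → ZMod 7)} (hA : Code k A) : A.card ≤ m k :=
  le_csSup (m_bdd k) ⟨A, hA, rfl⟩

lemma exists_m (k : ℕ) : ∃ A : Finset (Fin k → ZMod 7), Code k A ∧ A.card = m k :=
  Nat.sSup_mem (s := {t : ℕ | ∃ A : Finset (Fin k → ZMod 7), Code k A ∧ A.card = t})
    ⟨0, ∅, by intro x hx; simp at hx, rfl⟩ (m_bdd k)

lemma one_le_m (k : ℕ) : 1 ≤ m k := by
  have h : Code k {0} := by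
    intro x hx y hy _
    rw [Finset.mem_singleton] at hx hy
    rw [hx, hy]
  have := le_m h
  rwa [Finset.card_singleton] at this

lemma m_le_card (k : ℕ) : m k ≤ Fintype.card (X k) := by
  obtain ⟨A, _, hA⟩ := exists_m k
  rw [← hA]
  exact Finset.card_le_univ A

lemma unbalanced_of_code {d : ℕ} {S : Finset (X d)} (hS : Code d S) :
    ¬ TH197.Sym.Balanced (F d) (nt d) S := by
  rintro ⟨w, ⟨q, hq⟩, h, _⟩
  obtain ⟨⟨h1, h2⟩, h3⟩ := h q hq
  have h4 := h3 1
  rw [F_one_of h2] at h4
  exact h1 (hS q.1 (h3 0) q.2 h4 h2)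

lemma code_of_unbalanced {d : ℕ} {S : Finset (X d)}
    (hS : ¬ TH197.Sym.Balanced (F d) (nt d) S) : Code d S := by
  classical
  intro x hx y hy hxy
  by_contra hne
  apply hS
  have hyx : ∀ j, Close (y j) (x j) := fun j => (hxy j).symm
  refine ⟨fun q => if q = (x, y) ∨ q = (y, x) then 1 else 0, ⟨(x, y), ?_⟩, ?_, ?_⟩
  · simp
  · intro q hq
    have hq' : q = (x, y) ∨ q = (y, x) := by
      by_contra h
      exact hq (if_neg h)
    rcases hq' with rfl | rfl
    · refine ⟨⟨hne, hxy⟩, fun i => ?_⟩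
      fin_cases i
      · exact hx
      · show F d 1 (x, y) ∈ S
        rw [F_one_of hxy]
        exact hy
    · refine ⟨⟨fun h => hne h.symm, hyx⟩, fun i => ?_⟩
      fin_cases i
      · exact hy
      · show F d 1 (y, x) ∈ S
        rw [F_one_of hyx]
        exact hx
  · have hpair : (x, y) ≠ (y, x) := by
      intro h
      exact hne (congrArg Prod.fst h)
    have key : ∀ (i : Fin 2) (s : X d),
        (∑ q : X d × X d, if F d i q = s then (if q = (x, y) ∨ q = (y, x) then 1 else 0) else 0) =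
        (if x = s then 1 else 0) + (if y = s then 1 else 0) := by
      intro i s
      have e : ∀ q : X d × X d,
          (if F d i q = s then (if q = (x, y) ∨ q = (y, x) then 1 else 0) else 0) =
          (if q = (x, y) then (if F d i (x, y) = s then 1 else 0) else 0) +
          (if q = (y, x) then (if F d i (y, x) = s then 1 else 0) else 0) := by
        intro q
        by_cases h1 : q = (x, y)
        · subst h1
          simp [hpair]
        · by_cases h2 : q = (y, x)
          · subst h2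
            simp [hpair.symm]
          · simp [h1, h2]
      rw [Finset.sum_congr rfl (fun q _ => e q), Finset.sum_add_distrib, Finset.sum_ite_eq',
        Finset.sum_ite_eq', if_pos (mem_univ _), if_pos (mem_univ _)]
      fin_cases i
      · rfl
      · show (if F d 1 (x, y) = s then 1 else 0) + (if F d 1 (y, x) = s then 1 else 0) = _
        rw [F_one_of hxy, F_one_of hyx, add_comm]
    intro i j s
    rw [key i s, key j s]

lemma hmax (d : ℕ) (S : Finset (X d)) (hS : ¬ TH197.Sym.Balanced (F d) (nt d) S) :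
    S.card ≤ m d := le_m (code_of_unbalanced hS)

lemma free_of {d n : ℕ} {A : Finset (Fin n → X d)} (hA : BlockCode d n A) :
    TH197.Sym.Free (F d) (nt d) A := by
  intro q hq c hc
  have h0 := hq 0
  have h1 := hq 1
  have h2 := hA _ h0 _ h1 (fun i j => by
    by_cases h : ∀ j, Close ((q i).1 j) ((q i).2 j)
    · show Close ((q i).1 j) (F d 1 (q i) j)
      rw [F_one_of h]
      exact h j
    · have : F d 1 (q i) = (q i).1 := if_neg h
      show Close ((q i).1 j) (F d 1 (q i) j)
      rw [this]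
      exact Close.refl _)
  have h3 : (q c).1 = F d 1 (q c) := congrFun h2 c
  rw [F_one_of hc.2] at h3
  exact hc.1 h3

lemma code_of_free {d n : ℕ} {A : Finset (Fin n → X d)}
    (hA : TH197.Sym.Free (F d) (nt d) A) : BlockCode d n A := by
  intro x hx y hy hxy
  have h := hA (fun c => (x c, y c)) (by
    intro i
    fin_cases i
    · exact hx
    · have : (fun c => F d 1 (x c, y c)) = y := by
        funext c
        exact F_one_of (hxy c)
      show (fun c => F d 1 (x c, y c)) ∈ A
      rw [this]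
      exact hy)
  funext c
  by_contra hc
  exact h c ⟨hc, hxy c⟩

lemma mblk_bdd (d n : ℕ) : BddAbove {t : ℕ | ∃ A : Finset (Fin n → Fin d → ZMod 7),
    BlockCode d n A ∧ (∀ σ : Perm (Fin n), Inv d n σ A) ∧ A.card = t} := by
  refine ⟨Fintype.card (Fin n → Fin d → ZMod 7), ?_⟩
  rintro t ⟨B, _, _, rfl⟩
  exact Finset.card_le_univ B

lemma mblk_upper (d : ℕ) : ∃ C : ℕ, ∀ n : ℕ, 1 ≤ n → mblk d n ≤ C * n ^ C * m d ^ n := by
  obtain ⟨C, hC⟩ := TH197.Sym.upper (F := F d) (nt := nt d) 0 (fun v => (v, v)) (hτ d) (m d)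
    (one_le_m d) (m_le_card d) (hmax d)
  refine ⟨C, fun n hn => ?_⟩
  apply csSup_le'
  rintro t ⟨A, hA, hS, rfl⟩
  exact hC n A hn (free_of hA) hS

lemma mblk_lower (d n : ℕ) : m d ^ n ≤ (n + 1) ^ (7 ^ d) * mblk d n := by
  obtain ⟨S, hS, hc⟩ := exists_m d
  obtain ⟨A, hA, hSy, h1⟩ := TH197.Sym.lower (F := F d) (nt := nt d) (htriv d) 0 S
    (unbalanced_of_code hS) n
  rw [hc, card_X] at h1
  refine h1.trans (Nat.mul_le_mul_left _ ?_)
  exact le_csSup (mblk_bdd d n) ⟨A, code_of_free hA, hSy, rfl⟩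

lemma card_real (d : ℕ) : (Fintype.card (X d) : ℝ) = (7 : ℝ) ^ d := by
  rw [card_X]
  push_cast
  rfl

lemma local_bound (d : ℕ) {ε : ℝ} (hε : 0 < ε) :
    ∃ T : ℕ, ∀ (n : ℕ) (c : Fin n → Fin n) (A : Finset (Fin n → Fin d → ZMod 7)),
      BlockCode d n A → (∀ σ : Perm (Fin n), (∀ i, c (σ i) = c i) → Inv d n σ A) →
      ∀ l : ℕ, l = (univ.filter fun i => T ≤ (univ.filter fun j => c j = c i).card).card →
      (A.card : ℝ) ≤ (m d + ε) ^ l * ((7 : ℝ) ^ d) ^ (n - l) := by
  obtain ⟨T, hT⟩ := TH197.Sym.classes (F := F d) (nt := nt d) 0 (fun v => (v, v)) (hτ d)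
    (m d) (one_le_m d) (m_le_card d) (hmax d) hε
  refine ⟨T, fun n c A hA hc l hl => ?_⟩
  have h1 := hT n (Fin n) c A (free_of hA) (fun i j hij x hx =>
    hc (swap i j) (fun z => by
      rw [swap_apply_def]
      split_ifs with e1 e2
      · rw [e1, hij]
      · rw [e2, hij]
      · rfl) x hx) l hl
  rwa [card_real] at h1

lemma large_bound (d : ℕ) {ε : ℝ} (hε : 0 < ε) :
    ∃ δ : ℝ, 0 < δ ∧ ∃ n₀ : ℕ, ∀ n : ℕ, n₀ ≤ n → ∀ H : Subgroup (Perm (Fin n)),
      (H.index : ℝ) ≤ (n.factorial : ℝ) ^ δ → ∀ A : Finset (Fin n → Fin d → ZMod 7),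
      BlockCode d n A → (∀ σ ∈ H, Inv d n σ A) → (A.card : ℝ) ≤ (m d + ε) ^ n := by
  obtain ⟨δ, hδ, n₀, h⟩ := TH197.Sym.large (F := F d) (nt := nt d) 0 (fun v => (v, v)) (hτ d)
    (m d) (one_le_m d) (m_le_card d) (hmax d) hε
  exact ⟨δ, hδ, n₀, fun n hn H hH A hA hA2 => h n hn A H (free_of hA) hA2 hH⟩

lemma m_one : m 1 = 3 := by
  classical
  apply le_antisymm
  · obtain ⟨A, hA, hc⟩ := exists_m 1
    have hinj : Function.Injective fun x : Fin 1 → ZMod 7 => x + 1 := fun x y h =>
      add_right_cancel h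
    have hdis : Disjoint A (A.image fun x => x + 1) := by
      rw [Finset.disjoint_left]
      intro x hx hx'
      rw [Finset.mem_image] at hx'
      obtain ⟨y, hy, rfl⟩ := hx'
      have h1 := hA _ hx y hy (fun i => Or.inr (Or.inl rfl))
      have h2 := congrFun h1 0
      have h3 : y 0 + 1 = y 0 := h2
      have h4 : (1 : ZMod 7) = 0 := by
        have := add_eq_left.1 h3
        exact this
      exact absurd h4 (by decide)
    have h1 := Finset.card_le_univ (A ∪ A.image fun x => x + 1)
    rw [Finset.card_union_of_disjoint hdis, Finset.card_image_of_injective _ hinj, card_X, hc] at h1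
    omega
  · have h : Code 1 {fun _ => 0, fun _ => 2, fun _ => 4} := by
      intro x hx y hy hxy
      have hb : ∀ a b : ZMod 7, (a = 0 ∨ a = 2 ∨ a = 4) → (b = 0 ∨ b = 2 ∨ b = 4) →
          (a = b ∨ a = b + 1 ∨ b = a + 1) → a = b := by decide
      have e : ∀ z : Fin 1 → ZMod 7, z ∈ ({fun _ => 0, fun _ => 2, fun _ => 4} :
          Finset (Fin 1 → ZMod 7)) → (z 0 = 0 ∨ z 0 = 2 ∨ z 0 = 4) := by
        intro z hz
        rw [Finset.mem_insert, Finset.mem_insert, Finset.mem_singleton] at hz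
        rcases hz with rfl | rfl | rfl <;> simp
      funext i
      rw [Subsingleton.elim i 0]
      exact hb _ _ (e x hx) (e y hy) (hxy 0)
    have h2 := le_m h
    refine le_trans (le_of_eq ?_) h2
    rw [Finset.card_eq_three.2 ⟨_, _, _, ?_, ?_, ?_, rfl⟩]
    · intro h; exact absurd (congrFun h 0) (by decide)
    · intro h; exact absurd (congrFun h 0) (by decide)
    · intro h; exact absurd (congrFun h 0) (by decide)

/-- For every block length `d ≥ 1`, with `m = m_d(C_7)`:
(1) the largest size `mblk d n` of a code for `C_7` of length `dn` that is invariant under all the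
permutations of its `n` blocks of length `d` is `m^n` up to a factor `C n^C`;
(2) for every `ε > 0` there is a `T` such that `|A| ≤ (m + ε)^l 7^{d(n - l)}` for the codes `A` of
length `dn` which are invariant under the permutations that preserve the classes of a partition of
the `n` blocks, where `l` is the number of the blocks in the classes with at least `T` elements;
(3) for every `ε > 0` there are `δ > 0` and `n₀` such that `|A| ≤ (m + ε)^n` if `n ≥ n₀` and the
code `A` of length `dn` is invariant under a group `H` of permutations of the `n` blocks whose index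
in the symmetric group is at most `(n!)^δ`. For `d = 1` one has `m = 3`. -/
theorem result :
    (∀ d : ℕ, 1 ≤ d → (∃ C : ℕ, ∀ n : ℕ, 1 ≤ n → mblk d n ≤ C * n ^ C * m d ^ n ∧
      m d ^ n ≤ C * n ^ C * mblk d n) ∧
    ∀ ε : ℝ, 0 < ε →
      (∃ T : ℕ, ∀ (n : ℕ) (c : Fin n → Fin n) (A : Finset (Fin n → Fin d → ZMod 7)),
        BlockCode d n A → (∀ σ : Perm (Fin n), (∀ i, c (σ i) = c i) → Inv d n σ A) →
        ∀ l : ℕ, l = (univ.filter fun i => T ≤ (univ.filter fun j => c j = c i).card).card →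
        (A.card : ℝ) ≤ (m d + ε) ^ l * ((7 : ℝ) ^ d) ^ (n - l)) ∧
      ∃ δ : ℝ, 0 < δ ∧ ∃ n₀ : ℕ, ∀ n : ℕ, n₀ ≤ n → ∀ H : Subgroup (Perm (Fin n)),
        (H.index : ℝ) ≤ (n.factorial : ℝ) ^ δ → ∀ A : Finset (Fin n → Fin d → ZMod 7),
        BlockCode d n A → (∀ σ ∈ H, Inv d n σ A) → (A.card : ℝ) ≤ (m d + ε) ^ n) ∧
    m 1 = 3 := by
  refine ⟨fun d _ => ⟨?_, fun ε hε => ⟨local_bound d hε, large_bound d hε⟩⟩, m_one⟩
  obtain ⟨C, hC⟩ := mblk_upper d
  have hL := mblk_lower d
  obtain ⟨E, hE⟩ : ∃ E, E = 7 ^ d := ⟨_, rfl⟩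
  obtain ⟨G, hG⟩ : ∃ G, G = 2 ^ E := ⟨_, rfl⟩
  rw [← hE] at hL
  refine ⟨C + E + G, fun n hn => ⟨(hC n hn).trans ?_, (hL n).trans ?_⟩⟩
  · exact Nat.mul_le_mul_right _ (Nat.mul_le_mul (by omega)
      (Nat.pow_le_pow_right hn (by omega)))
  · apply Nat.mul_le_mul_right
    calc (n + 1) ^ E ≤ (2 * n) ^ E := Nat.pow_le_pow_left (by omega) _
      _ = G * n ^ E := by rw [mul_pow, hG]
      _ ≤ (C + E + G) * n ^ (C + E + G) :=
        Nat.mul_le_mul (by omega) (Nat.pow_le_pow_right hn (by omega))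

end Pool.Agent.Results.MP_263185_co.SymmetricCodes
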